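import Mathlib

/-!
# MP_c8ce56_lc: the `ω₁`-ballean of `Sym(ω)` is emu-bounded if and only if CH fails
-/

set_option autoImplicit false

namespace Pool.Agent.Results.MP_c8ce56_lc.EmuBoundedIffNotCH

open Cardinal Set

/-- `f` is eventually macro-uniform for the `κ`-ballean of `G`: for every set `F` of fewer than `κ`
elements of `G` there is a set `B` of fewer than `κ` elements such that the diameters of the sets
`f (F x)`, `x ∉ B`, have a common finite bound. -/
def EventuallyMacroUniform (κ : Cardinal.{0}) (G : Type) [Group G] (f : G → ℝ) : Prop :=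
  ∀ F : Set G, #F < κ → ∃ B : Set G, #B < κ ∧
    ∃ R : ℝ, ∀ x ∉ B, ∀ g ∈ F, ∀ h ∈ F, |f (g * x) - f (h * x)| ≤ R

/-- The `κ`-ballean of `G` is emu-bounded: every eventually macro-uniform function is bounded
outside a set of fewer than `κ` elements. -/
def EmuBounded (κ : Cardinal.{0}) (G : Type) [Group G] : Prop :=
  ∀ f : G → ℝ, EventuallyMacroUniform κ G f →
    ∃ B : Set G, #B < κ ∧ ∃ R : ℝ, ∀ x ∉ B, |f x| ≤ R

theorem lt_iff {G : Type} (B : Set G) : #B < ℵ_ 1 ↔ B.Countable := by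
  rw [← succ_aleph0, Order.lt_succ_iff, Cardinal.le_aleph0_iff_set_countable]

theorem iUnion_le {ι α : Type} (hι : #ι ≤ ℵ_ 1) (s : ι → Set α) (h : ∀ i, (s i).Countable) :
    #(⋃ i, s i) ≤ ℵ_ 1 := by
  refine (Cardinal.mk_iUnion_le_sum_mk).trans ?_
  refine (Cardinal.sum_le_sum _ (fun _ => ℵ₀) fun x => (h x).le_aleph0).trans ?_
  rw [Cardinal.sum_const']
  exact (mul_le_mul' hι (aleph0_le_aleph 1)).trans (Cardinal.mul_eq_self (aleph0_le_aleph 1)).le

theorem closure_countable {G : Type} [Group G] {s : Set G} (hs : s.Countable) :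
    (Subgroup.closure s : Set G).Countable := by
  have : Countable s := hs.to_subtype
  rw [FreeGroup.closure_eq_range]
  exact Set.countable_range _

theorem not_countable_of {G : Type} {B : Set G} (h : ℵ_ 1 ≤ #B) : ¬ B.Countable := by
  rw [← lt_iff]
  exact not_lt.2 h

theorem le_of_not_countable {G : Type} {B : Set G} (h : ¬ B.Countable) : ℵ_ 1 ≤ #B := by
  rw [← lt_iff] at h
  exact not_lt.1 h

/-! ### groups of size `ℵ₁` -/

abbrev Om : Type := (Ordinal.omega.{0} 1).ToType

theorem mk_Om : #Om = ℵ_ 1 := by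
  rw [Cardinal.mk_toType, Ordinal.card_omega]

theorem countable_Iio (α : Om) : (Iio α).Countable := by
  rw [← lt_iff]
  have h : #(Iio α) < #Om := Cardinal.mk_Iio_lt α (by simp [Om])
  rwa [mk_Om] at h

theorem countable_Iic (α : Om) : (Iic α).Countable := by
  rw [← Set.Iio_insert]
  exact (countable_Iio α).insert α

theorem bounded (A : Set Om) (hA : A.Countable) : ∃ b, ∀ a ∈ A, a < b := by
  by_contra hcon
  push Not at hcon
  refine not_countable_of (B := (univ : Set Om)) (by rw [Cardinal.mk_univ, mk_Om])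
    ((hA.biUnion fun a _ => countable_Iic a).mono ?_)
  intro b _
  obtain ⟨a, ha, hba⟩ := hcon b
  exact mem_biUnion ha hba

theorem not_emuBounded {G : Type} [Group G] (hG : #G = ℵ_ 1) : ¬ EmuBounded (ℵ_ 1) G := by
  classical
  obtain ⟨e⟩ : Nonempty (Om ≃ G) := by
    rw [← Cardinal.eq, hG, mk_Om]
  let H : Om → Subgroup G := fun α => Subgroup.closure (e '' Iio α)
  have hHc : ∀ α, (H α : Set G).Countable := by
    intro α
    exact closure_countable ((countable_Iio α).image e)
  have hHm : ∀ α β, α ≤ β → H α ≤ H β := fun α β h =>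
    Subgroup.closure_mono (image_mono (Iio_subset_Iio h))
  have hHe : ∀ α β, α < β → e α ∈ H β := fun α β h => Subgroup.subset_closure ⟨α, h, rfl⟩
  have hex : ∀ x : G, {α | x ∈ H α}.Nonempty := by
    intro x
    obtain ⟨β, hβ⟩ := bounded {e.symm x} (countable_singleton _)
    refine ⟨β, ?_⟩
    have h1 := hHe _ _ (hβ _ rfl)
    rwa [Equiv.apply_symm_apply] at h1
  let ρ : G → Om := fun x => wellFounded_lt.min {α | x ∈ H α} (hex x)
  have hρ : ∀ x, x ∈ H (ρ x) := fun x => wellFounded_lt.min_mem _ (hex x)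
  have hρeq : ∀ α g x, g ∈ H α → x ∉ H α → ρ (g * x) = ρ x := by
    intro α g x hg hx
    have h1 : {β | g * x ∈ H β} = {β | x ∈ H β} := by
      ext β
      rcases le_total α β with h | h
      · constructor
        · intro h2
          have h3 : g⁻¹ * (g * x) ∈ H β := (H β).mul_mem ((H β).inv_mem (hHm _ _ h hg)) h2
          rwa [inv_mul_cancel_left] at h3
        · intro h2
          exact (H β).mul_mem (hHm _ _ h hg) h2
      · constructor
        · intro h2
          exfalso
          apply hx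
          have h3 : g⁻¹ * (g * x) ∈ H α := (H α).mul_mem ((H α).inv_mem hg) (hHm _ _ h h2)
          rwa [inv_mul_cancel_left] at h3
        · intro h2
          exact absurd (hHm _ _ h h2) hx
    show wellFounded_lt.min {β | g * x ∈ H β} (hex (g * x)) = wellFounded_lt.min {β | x ∈ H β} (hex x)
    congr 1
  have hR : ¬ (range ρ).Countable := by
    intro h
    have h1 : (univ : Set G) ⊆ ⋃ α ∈ range ρ, (H α : Set G) := by
      intro x _
      exact mem_biUnion ⟨x, rfl⟩ (hρ x)
    refine not_countable_of (B := (univ : Set G)) (by rw [Cardinal.mk_univ, hG])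
      ((h.biUnion fun α _ => hHc α).mono h1)
  have hRle : ℵ_ 1 ≤ #(range ρ) := le_of_not_countable hR
  obtain ⟨s⟩ : Nonempty ((range ρ) ≃ (range ρ) × ℕ) := by
    rw [← Cardinal.eq, Cardinal.mk_prod, Cardinal.lift_id, Cardinal.lift_id, Cardinal.mk_nat]
    exact (Cardinal.mul_eq_left ((aleph0_le_aleph 1).trans hRle)
      ((aleph0_le_aleph 1).trans hRle) Cardinal.aleph0_ne_zero).symm
  let f : G → ℝ := fun x => ((s ⟨ρ x, x, rfl⟩).2 : ℝ)
  have hf : ∀ x y, ρ x = ρ y → f x = f y := by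
    intro x y h
    have : (⟨ρ x, x, rfl⟩ : range ρ) = ⟨ρ y, y, rfl⟩ := Subtype.ext h
    show ((s ⟨ρ x, x, rfl⟩).2 : ℝ) = ((s ⟨ρ y, y, rfl⟩).2 : ℝ)
    rw [this]
  intro hemu
  obtain ⟨B, hB, R, hR2⟩ := hemu f (by
    intro F hF
    rw [lt_iff] at hF
    obtain ⟨α, hα⟩ := bounded (e.symm '' F) (hF.image _)
    have hFH : ∀ g ∈ F, g ∈ H α := by
      intro g hg
      have h1 := hHe _ _ (hα _ ⟨g, hg, rfl⟩)
      rwa [Equiv.apply_symm_apply] at h1
    refine ⟨H α, (lt_iff _).2 (hHc α), 0, fun x hx g hg h hh => ?_⟩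
    have h1 := hf _ _ (hρeq α g x (hFH g hg) hx)
    have h2 := hf _ _ (hρeq α h x (hFH h hh) hx)
    rw [h1, h2, sub_self, abs_zero])
  rw [lt_iff] at hB
  obtain ⟨n, hn⟩ := exists_nat_gt R
  let Z : Set (range ρ) := (fun x : G => (⟨ρ x, x, rfl⟩ : range ρ)) '' B
  have hZ : Z.Countable := hB.image _
  have hfib : ¬ (range fun r : range ρ => s.symm (r, n)).Countable := by
    apply not_countable_of
    rw [Cardinal.mk_range_eq _ (fun a b h => by
      have := s.symm.injective h
      exact (Prod.mk.inj this).1)]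
    exact hRle
  obtain ⟨r, ⟨r', hr'⟩, hrZ⟩ : ∃ r, r ∈ (range fun r : range ρ => s.symm (r, n)) ∧ r ∉ Z := by
    by_contra h
    push Not at h
    exact hfib (hZ.mono h)
  obtain ⟨x, hx⟩ := r.2
  have hxr : (⟨ρ x, x, rfl⟩ : range ρ) = r := Subtype.ext hx
  have hxB : x ∉ B := fun h => hrZ ⟨x, h, hxr⟩
  have h1 := hR2 x hxB
  have h2 : f x = n := by
    show ((s ⟨ρ x, x, rfl⟩).2 : ℝ) = n
    rw [hxr, ← hr']
    show ((s (s.symm (r', n))).2 : ℝ) = n
    rw [Equiv.apply_symm_apply]
  rw [h2, abs_of_nonneg (Nat.cast_nonneg n)] at h1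
  exact absurd h1 (not_le.2 hn)

/-! ### permutations of `ℕ` -/

/-- the permutations with support in `A` -/
def Fix (A : Set ℕ) : Set (Equiv.Perm ℕ) := {x | ∀ n ∉ A, x n = n}

theorem fix_commute {A B : Set ℕ} (h : Disjoint A B) {x y : Equiv.Perm ℕ} (hx : x ∈ Fix A)
    (hy : y ∈ Fix B) : x * y = y * x := by
  have hd : Equiv.Perm.Disjoint x y := by
    intro n
    by_cases hn : n ∈ A
    · exact Or.inr (hy n (Set.disjoint_left.1 h hn))
    · exact Or.inl (hx n hn)
  exact hd.commute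

theorem mk_fix {A : Set ℕ} (hA : A.Infinite) : 𝔠 ≤ #(Fix A) := by
  classical
  have : Infinite A := hA.to_subtype
  obtain ⟨e⟩ : Nonempty (ℕ × Bool ≃ {n // n ∈ A}) := by
    have h1 : Denumerable A := Denumerable.ofEncodableOfInfinite A
    have h2 : Denumerable (ℕ × Bool) := Denumerable.ofEncodableOfInfinite _
    exact ⟨(Denumerable.eqv (ℕ × Bool)).trans (Denumerable.eqv A).symm⟩
  let σ : (ℕ → Bool) → Equiv.Perm (ℕ × Bool) := fun S =>
    { toFun := fun p => (p.1, xor p.2 (S p.1))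
      invFun := fun p => (p.1, xor p.2 (S p.1))
      left_inv := fun p => by
        rcases p with ⟨n, b⟩
        cases b <;> cases h : S n <;> simp [h]
      right_inv := fun p => by
        rcases p with ⟨n, b⟩
        cases b <;> cases h : S n <;> simp [h] }
  let τ : (ℕ → Bool) → Fix A := fun S => ⟨(σ S).extendDomain e, fun n hn =>
    Equiv.Perm.extendDomain_apply_not_subtype _ _ hn⟩
  have hτ : Function.Injective τ := by
    intro S S' h
    have h1 : (σ S).extendDomain e = (σ S').extendDomain e := congrArg Subtype.val h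
    funext n
    have h2 : (σ S).extendDomain e (e (n, false)) = (σ S').extendDomain e (e (n, false)) := by
      rw [h1]
    rw [Equiv.Perm.extendDomain_apply_image, Equiv.Perm.extendDomain_apply_image] at h2
    have h3 := e.injective (Subtype.ext h2)
    have h4 := congrArg Prod.snd h3
    simpa [σ] using h4
  have h5 := Cardinal.mk_le_of_injective hτ
  rwa [← Cardinal.power_def, Cardinal.mk_bool, Cardinal.mk_nat, Cardinal.two_power_aleph0] at h5

/-- infinite sets with an infinite complement -/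
def Moiety (A : Set ℕ) : Prop := A.Infinite ∧ Aᶜ.Infinite

theorem Moiety.compl {A : Set ℕ} (h : Moiety A) : Moiety Aᶜ := ⟨h.2, by rw [compl_compl]; exact h.1⟩

theorem moiety_even : Moiety {n | n % 2 = 0} := by
  constructor
  · refine Set.infinite_of_injective_forall_mem (f := fun n : ℕ => 2 * n) (fun a b h => ?_) fun n => ?_
    · simpa using h
    · show 2 * n % 2 = 0
      omega
  · refine Set.infinite_of_injective_forall_mem (f := fun n : ℕ => 2 * n + 1) (fun a b h => ?_)
      fun n => ?_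
    · simpa using h
    · show ¬ (2 * n + 1) % 2 = 0
      omega

/-- every permutation is the product of two permutations with supports contained in moieties -/
theorem exists_mul (g : Equiv.Perm ℕ) :
    ∃ A B, Moiety A ∧ Moiety B ∧ ∃ h ∈ Fix A, ∃ k ∈ Fix B, g = h * k := by
  classical
  by_cases hfin : {n | g n ≠ n}.Finite
  · -- finite support
    obtain ⟨N, hN⟩ := hfin.bddAbove
    refine ⟨{n | n ≤ N ∨ n % 2 = 0}, {n | n % 2 = 0}, ⟨?_, ?_⟩, moiety_even, g, ?_, 1, ?_, ?_⟩
    · exact moiety_even.1.mono fun n hn => Or.inr hn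
    · refine Set.infinite_of_injective_forall_mem (f := fun n : ℕ => 2 * (n + N) + 1)
        (fun a b h => ?_) fun n => ?_
      · have h' : 2 * (a + N) + 1 = 2 * (b + N) + 1 := h
        omega
      · show ¬ (2 * (n + N) + 1 ≤ N ∨ (2 * (n + N) + 1) % 2 = 0)
        omega
    · intro n hn
      by_contra hne
      exact hn (Or.inl (hN hne))
    · intro n _
      rfl
    · rw [mul_one]
  · -- infinite support
    have hinf : {n | g n ≠ n}.Infinite := hfin
    have hstep : ∀ F : Finset ℕ, ∃ a, g a ≠ a ∧ a ∉ F ∧ g a ∉ F ∧ g.symm a ∉ F := by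
      intro F
      have hbad : (↑F ∪ g.symm '' ↑F ∪ g '' ↑F : Set ℕ).Finite :=
        (F.finite_toSet.union (F.finite_toSet.image _)).union (F.finite_toSet.image _)
      obtain ⟨a, ha, ha2⟩ := (hinf.sdiff hbad).nonempty
      refine ⟨a, ha, fun h => ha2 (Or.inl (Or.inl h)), fun h => ha2 (Or.inl (Or.inr ?_)),
        fun h => ha2 (Or.inr ?_)⟩
      · exact ⟨g a, h, g.symm_apply_apply a⟩
      · exact ⟨g.symm a, h, g.apply_symm_apply a⟩
    choose nx h1 h2 h3 h4 using hstep
    -- the sequence of chosen points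
    let Fs : ℕ → Finset ℕ := fun n => Nat.rec ∅ (fun _ F => insert (nx F) F) n
    have hFs : ∀ n, Fs (n + 1) = insert (nx (Fs n)) (Fs n) := fun n => rfl
    let a : ℕ → ℕ := fun n => nx (Fs n)
    have hmem : ∀ m n, m < n → a m ∈ Fs n := by
      intro m n hmn
      induction n with
      | zero => exact absurd hmn (Nat.not_lt_zero m)
      | succ n ih =>
        rw [hFs]
        rcases Nat.lt_succ_iff_lt_or_eq.1 hmn with h | rfl
        · exact Finset.mem_insert_of_mem (ih h)
        · exact Finset.mem_insert_self _ _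
    have hne : ∀ m n, m ≠ n → a m ≠ a n := by
      have : ∀ m n, m < n → a m ≠ a n := by
        intro m n hmn h
        have h5 := hmem m n hmn
        rw [h] at h5
        exact h2 _ h5
      intro m n hmn
      rcases lt_or_gt_of_ne hmn with h | h
      · exact this m n h
      · exact (this n m h).symm
    have hainj : Function.Injective a := by
      intro m n h
      by_contra hcon
      exact hne m n hcon h
    have hga : ∀ m n, g (a m) ≠ a n := by
      intro m n h
      rcases lt_trichotomy m n with hmn | rfl | hmn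
      · -- a m ∈ Fs n, a n = g (a m)
        have h5 := hmem m n hmn
        apply h4 (Fs n)
        show g.symm (a n) ∈ Fs n
        rw [← h, g.symm_apply_apply]
        exact h5
      · exact h1 _ h
      · have h5 := hmem n m hmn
        apply h3 (Fs m)
        show g (a m) ∈ Fs m
        rw [h]
        exact h5
    let S : Set ℕ := range fun n => a (2 * n)
    let h : ℕ → ℕ := fun n => if n ∈ S then g n else if g.symm n ∈ S then g.symm n else n
    have hS : ∀ n, n ∈ S → g n ∉ S := by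
      rintro _ ⟨m, rfl⟩ ⟨k, hk⟩
      exact hga _ _ hk.symm
    have hhh : ∀ n, h (h n) = n := by
      intro n
      by_cases hn : n ∈ S
      · have e1 : h n = g n := if_pos hn
        rw [e1]
        show (if g n ∈ S then g (g n) else if g.symm (g n) ∈ S then g.symm (g n) else g n) = n
        rw [if_neg (hS n hn), g.symm_apply_apply, if_pos hn]
      · by_cases hn2 : g.symm n ∈ S
        · have e1 : h n = g.symm n := by
            show (if n ∈ S then g n else if g.symm n ∈ S then g.symm n else n) = g.symm n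
            rw [if_neg hn, if_pos hn2]
          rw [e1]
          show (if g.symm n ∈ S then g (g.symm n) else _) = n
          rw [if_pos hn2, g.apply_symm_apply]
        · have e1 : h n = n := by
            show (if n ∈ S then g n else if g.symm n ∈ S then g.symm n else n) = n
            rw [if_neg hn, if_neg hn2]
          rw [e1, e1]
    let h' : Equiv.Perm ℕ := ⟨h, h, hhh, hhh⟩
    have hodd : ∀ n, a (2 * n + 1) ∉ S ∪ g '' S := by
      rintro n (⟨m, hm⟩ | ⟨_, ⟨m, rfl⟩, hm⟩)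
      · have hm' : a (2 * m) = a (2 * n + 1) := hm
        have := @hainj (2 * m) (2 * n + 1) hm'
        omega
      · have hm' : g (a (2 * m)) = a (2 * n + 1) := hm
        exact hga (2 * m) (2 * n + 1) hm'
    have hSinf : S.Infinite := Set.infinite_of_injective_forall_mem
      (f := fun n : ℕ => a (2 * n)) (fun m n e => by
        have := @hainj (2 * m) (2 * n) e
        omega) fun n => ⟨n, rfl⟩
    refine ⟨S ∪ g '' S, Sᶜ, ⟨hSinf.mono subset_union_left, ?_⟩, ⟨?_, ?_⟩, h', ?_, h'⁻¹ * g, ?_, ?_⟩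
    · exact Set.infinite_of_injective_forall_mem (f := fun n : ℕ => a (2 * n + 1)) (fun m n e => by
        have := @hainj (2 * m + 1) (2 * n + 1) e
        omega) hodd
    · exact Set.infinite_of_injective_forall_mem (f := fun n : ℕ => a (2 * n + 1)) (fun m n e => by
        have := @hainj (2 * m + 1) (2 * n + 1) e
        omega) fun n hn => hodd n (Or.inl hn)
    · rw [compl_compl]
      exact hSinf
    · intro n hn
      rw [mem_union, not_or] at hn
      show (if n ∈ S then g n else if g.symm n ∈ S then g.symm n else n) = n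
      rw [if_neg hn.1, if_neg]
      intro h5
      exact hn.2 ⟨g.symm n, h5, g.apply_symm_apply n⟩
    · intro n hn
      have hn' : n ∈ S := by
        by_contra h5
        exact hn h5
      have e1 : h' n = g n := if_pos hn'
      show h'⁻¹ (g n) = n
      rw [← e1]
      exact Equiv.symm_apply_apply h' n
    · rw [mul_inv_cancel_left]

/-! ### the main argument -/

section
variable {f : Equiv.Perm ℕ → ℝ} {C : ℝ}

/-- two commuting sets of permutations -/
theorem comm_close (hC : ∀ g, {x | C < |f (g * x) - f x|}.Countable)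
    {X Y : Set (Equiv.Perm ℕ)} (hXY : ∀ x ∈ X, ∀ y ∈ Y, x * y = y * x) (hX : ¬ X.Countable)
    (hY : ℵ_ 1 < #Y) (b : Equiv.Perm ℕ) : ∃ x ∈ X, ∃ y ∈ Y, |f (x * b) - f (y * b)| ≤ 2 * C := by
  obtain ⟨X0, hX0, hX0c⟩ := Cardinal.le_mk_iff_exists_subset.1 (le_of_not_countable hX)
  have hcb : ∀ g, {x | C < |f (g * (x * b)) - f (x * b)|}.Countable := by
    intro g
    exact (hC g).preimage (f := fun x => x * b) (mul_left_injective b)
  obtain ⟨y, hy, hy2⟩ : ∃ y ∈ Y, ∀ x ∈ X0, |f (x * (y * b)) - f (y * b)| ≤ C := by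
    by_contra hcon
    push Not at hcon
    have h1 : Y ⊆ ⋃ x : X0, {y | C < |f (x.1 * (y * b)) - f (y * b)|} := by
      intro y hy
      obtain ⟨x, hx, hxy⟩ := hcon y hy
      exact mem_iUnion.2 ⟨⟨x, hx⟩, hxy⟩
    have h2 : #Y ≤ ℵ_ 1 :=
      (Cardinal.mk_le_mk_of_subset h1).trans (iUnion_le hX0c.le _ fun x => hcb x.1)
    exact absurd hY (not_lt.2 h2)
  obtain ⟨x, hx, hx2⟩ : ∃ x ∈ X0, |f (y * (x * b)) - f (x * b)| ≤ C := by
    by_contra hcon
    push Not at hcon
    exact not_countable_of (by rw [hX0c]) ((hcb y).mono hcon)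
  refine ⟨x, hX0 hx, y, hy, ?_⟩
  have h1 := hy2 x hx
  rw [← mul_assoc, hXY x (hX0 hx) y hy, mul_assoc] at h1
  rw [abs_le] at h1 hx2 ⊢
  constructor <;> linarith [h1.1, h1.2, hx2.1, hx2.2]

theorem big_diff {Y Z : Set (Equiv.Perm ℕ)} (hY : ℵ_ 1 < #Y) (hZ : #Z ≤ ℵ_ 1) :
    ℵ_ 1 < #(Y \ Z : Set (Equiv.Perm ℕ)) := by
  by_contra hcon
  have h1 : #Y ≤ #(Y \ Z : Set (Equiv.Perm ℕ)) + #Z := by
    refine (Cardinal.mk_le_mk_of_subset (t := (Y \ Z) ∪ Z) ?_).trans (Cardinal.mk_union_le _ _)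
    rw [sdiff_union_self]
    exact subset_union_left
  refine absurd hY (not_lt.2 (h1.trans ?_))
  exact (add_le_add (not_lt.1 hcon) hZ).trans (Cardinal.add_eq_self (aleph0_le_aleph 1)).le

/-- `f (x b)` is close to `t` for all but countably many `x` with support in `A` -/
def Near (f : Equiv.Perm ℕ → ℝ) (K : ℝ) (b : Equiv.Perm ℕ) (A : Set ℕ) (t : ℝ) : Prop :=
  {x | x ∈ Fix A ∧ K < |f (x * b) - t|}.Countable

theorem exists_near (hC : ∀ g, {x | C < |f (g * x) - f x|}.Countable) (hch : (ℵ_ 1 : Cardinal.{0}) < 𝔠)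
    {A : Set ℕ} (hA : Moiety A) (b : Equiv.Perm ℕ) : ∃ t, Near f (2 * C + 1) b A t := by
  obtain ⟨t, ht⟩ : ∃ t : ℤ, ℵ_ 1 < #{y | y ∈ Fix Aᶜ ∧ ⌊f (y * b)⌋ = t} := by
    by_contra hcon
    push Not at hcon
    have h1 : Fix Aᶜ ⊆ ⋃ t : ℤ, {y | y ∈ Fix Aᶜ ∧ ⌊f (y * b)⌋ = t} := by
      intro y hy
      exact mem_iUnion.2 ⟨_, hy, rfl⟩
    have h2 : #(Fix Aᶜ) ≤ ℵ_ 1 := by
      refine (Cardinal.mk_le_mk_of_subset h1).trans ?_
      refine (Cardinal.mk_iUnion_le_sum_mk).trans ?_
      refine (Cardinal.sum_le_sum _ (fun _ => ℵ_ 1) hcon).trans ?_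
      rw [Cardinal.sum_const', Cardinal.mk_int]
      exact (mul_le_mul' (aleph0_le_aleph 1) le_rfl).trans
        (Cardinal.mul_eq_self (aleph0_le_aleph 1)).le
    exact absurd (hch.trans_le ((mk_fix hA.2).trans h2)) (lt_irrefl _)
  refine ⟨t, ?_⟩
  by_contra hcon
  obtain ⟨x, ⟨hx, hx2⟩, y, ⟨hy, hy2⟩, hxy⟩ := comm_close hC (fun x hx y hy =>
    fix_commute disjoint_compl_right hx.1 hy.1) hcon ht b
  have h1 := Int.floor_le (f (y * b))
  have h2 := Int.lt_floor_add_one (f (y * b))
  rw [hy2] at h1 h2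
  apply absurd hx2
  rw [not_lt, abs_le]
  rw [abs_le] at hxy
  constructor <;> linarith [hxy.1, hxy.2]

theorem fix_big (hch : (ℵ_ 1 : Cardinal.{0}) < 𝔠) {A : Set ℕ} (hA : A.Infinite) : ℵ_ 1 < #(Fix A) :=
  hch.trans_le (mk_fix hA)

theorem near_disjoint (hC : ∀ g, {x | C < |f (g * x) - f x|}.Countable) (hch : (ℵ_ 1 : Cardinal.{0}) < 𝔠)
    {A B : Set ℕ} (hA : A.Infinite) (hB : B.Infinite) (hAB : Disjoint A B) {b : Equiv.Perm ℕ}
    {K t s : ℝ} (ht : Near f K b A t) (hs : Near f K b B s) : |t - s| ≤ 2 * K + 2 * C := by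
  have hX := big_diff (fix_big hch hA) (ht.le_aleph0.trans (aleph0_le_aleph 1))
  have hY := big_diff (fix_big hch hB) (hs.le_aleph0.trans (aleph0_le_aleph 1))
  obtain ⟨x, hx, y, hy, hxy⟩ := comm_close hC (fun x hx y hy =>
    fix_commute hAB hx.1 hy.1) (not_countable_of hX.le) hY b
  have h1 : |f (x * b) - t| ≤ K := by
    by_contra h
    exact hx.2 ⟨hx.1, not_le.1 h⟩
  have h2 : |f (y * b) - s| ≤ K := by
    by_contra h
    exact hy.2 ⟨hy.1, not_le.1 h⟩
  rw [abs_le] at h1 h2 hxy ⊢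
  constructor <;> linarith [h1.1, h1.2, h2.1, h2.2, hxy.1, hxy.2]

theorem near_any (hC : ∀ g, {x | C < |f (g * x) - f x|}.Countable) (hC0 : 0 ≤ C)
    (hch : (ℵ_ 1 : Cardinal.{0}) < 𝔠) {A B : Set ℕ} (hA : Moiety A) (hB : Moiety B) {b : Equiv.Perm ℕ}
    {t s : ℝ} (ht : Near f (2 * C + 1) b A t) (hs : Near f (2 * C + 1) b B s) :
    |t - s| ≤ 18 * C + 6 := by
  by_cases h : (Aᶜ ∩ Bᶜ).Infinite
  · have hm : Moiety (Aᶜ ∩ Bᶜ) := ⟨h, hA.1.mono fun n hn h => h.1 hn⟩
    obtain ⟨r, hr⟩ := exists_near hC hch hm b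
    have h1 := near_disjoint hC hch hA.1 hm.1
      (Set.disjoint_left.2 fun n hn h => h.1 hn) ht hr
    have h2 := near_disjoint hC hch hm.1 hB.1
      (Set.disjoint_left.2 fun n hn h => hn.2 h) hr hs
    rw [abs_le] at h1 h2 ⊢
    constructor <;> linarith [h1.1, h1.2, h2.1, h2.2]
  · have h' : (A ∩ Bᶜ).Infinite := by
      by_contra h3
      rw [Set.not_infinite] at h h3
      apply hB.2
      refine (h.union h3).subset fun n hn => ?_
      by_cases hnA : n ∈ A
      · exact Or.inr ⟨hnA, hn⟩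
      · exact Or.inl ⟨hnA, hn⟩
    have hm : Moiety (A ∩ Bᶜ) := ⟨h', hB.1.mono fun n hn h => h.2 hn⟩
    obtain ⟨r, hr⟩ := exists_near hC hch hA.compl b
    obtain ⟨q, hq⟩ := exists_near hC hch hm b
    have h1 := near_disjoint hC hch hA.1 hA.2 disjoint_compl_right ht hr
    have h2 := near_disjoint hC hch hA.2 hm.1
      (Set.disjoint_left.2 fun n hn h => hn h.1) hr hq
    have h3 := near_disjoint hC hch hm.1 hB.1
      (Set.disjoint_left.2 fun n hn h => hn.2 h) hq hs
    rw [abs_le] at h1 h2 h3 ⊢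
    constructor <;> linarith [h1.1, h1.2, h2.1, h2.2, h3.1, h3.2]

theorem near_mul (hC : ∀ g, {x | C < |f (g * x) - f x|}.Countable) (hC0 : 0 ≤ C)
    (hch : (ℵ_ 1 : Cardinal.{0}) < 𝔠) {A B : Set ℕ} (hA : Moiety A) (hB : Moiety B) {b h : Equiv.Perm ℕ}
    (hh : h ∈ Fix B) {t s : ℝ} (ht : Near f (2 * C + 1) b A t)
    (hs : Near f (2 * C + 1) (h * b) A s) : |t - s| ≤ 41 * C + 14 := by
  obtain ⟨t', ht'⟩ := exists_near hC hch hB.compl b
  obtain ⟨s', hs'⟩ := exists_near hC hch hB.compl (h * b)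
  have h1 := near_any hC hC0 hch hA hB.compl ht ht'
  have h2 := near_any hC hC0 hch hA hB.compl hs hs'
  have hcb : {x | C < |f (h * (x * b)) - f (x * b)|}.Countable :=
    (hC h).preimage (f := fun x => x * b) (mul_left_injective b)
  have hall : ({x | x ∈ Fix Bᶜ ∧ 2 * C + 1 < |f (x * b) - t'|} ∪
      {x | x ∈ Fix Bᶜ ∧ 2 * C + 1 < |f (x * (h * b)) - s'|} ∪
      {x | C < |f (h * (x * b)) - f (x * b)|}).Countable := (ht'.union hs').union hcb
  have hbig := big_diff (fix_big hch hB.2) (hall.le_aleph0.trans (aleph0_le_aleph 1))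
  obtain ⟨x, hx, hx2⟩ : (Fix Bᶜ \ ({x | x ∈ Fix Bᶜ ∧ 2 * C + 1 < |f (x * b) - t'|} ∪
      {x | x ∈ Fix Bᶜ ∧ 2 * C + 1 < |f (x * (h * b)) - s'|} ∪
      {x | C < |f (h * (x * b)) - f (x * b)|})).Nonempty := by
    by_contra hcon
    rw [not_nonempty_iff_eq_empty] at hcon
    rw [hcon, Cardinal.mk_eq_zero] at hbig
    exact absurd hbig (not_lt.2 zero_le)
  rw [mem_union, mem_union, not_or, not_or] at hx2
  have h3 : |f (x * b) - t'| ≤ 2 * C + 1 := by
    by_contra h4
    exact hx2.1.1 ⟨hx, not_le.1 h4⟩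
  have h4 : |f (x * (h * b)) - s'| ≤ 2 * C + 1 := by
    by_contra h4
    exact hx2.1.2 ⟨hx, not_le.1 h4⟩
  have h5 : |f (h * (x * b)) - f (x * b)| ≤ C := by
    by_contra h4
    exact hx2.2 (not_le.1 h4)
  have h6 : x * (h * b) = h * (x * b) := by
    rw [← mul_assoc, ← mul_assoc, fix_commute disjoint_compl_left hx hh]
  rw [h6] at h4
  rw [abs_le] at h1 h2 h3 h4 h5 ⊢
  constructor <;> linarith [h1.1, h1.2, h2.1, h2.2, h3.1, h3.2, h4.1, h4.2, h5.1, h5.2]

end

theorem emuBounded (hch : (ℵ_ 1 : Cardinal.{0}) < 𝔠) : EmuBounded (ℵ_ 1) (Equiv.Perm ℕ) := by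
  classical
  intro f hf
  obtain ⟨C, hC0, hC⟩ : ∃ C : ℝ, 0 ≤ C ∧ ∀ g, {x | C < |f (g * x) - f x|}.Countable := by
    by_contra hcon
    push Not at hcon
    choose g hg using fun n : ℕ => hcon n (Nat.cast_nonneg n)
    obtain ⟨B, hB, R, hR⟩ := hf (insert 1 (range g)) ((lt_iff _).2 ((countable_range g).insert 1))
    obtain ⟨n, hn⟩ := exists_nat_gt R
    rw [lt_iff] at hB
    refine hg n (hB.mono fun x hx => ?_)
    by_contra hxB
    have h1 := hR x hxB (g n) (mem_insert_of_mem _ ⟨n, rfl⟩) 1 (mem_insert _ _)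
    rw [one_mul] at h1
    have hx' : (n : ℝ) < |f (g n * x) - f x| := hx
    linarith
  choose e he using fun b => exists_near hC hch moiety_even b
  have he1 : ∀ g, |e g - e 1| ≤ 2 * (41 * C + 14) := by
    intro g
    obtain ⟨A, B, hA, hB, h, hh, k, hk, rfl⟩ := exists_mul g
    have h1 := near_mul hC hC0 hch moiety_even hA hh (he k) (he (h * k))
    have h2 := near_mul hC hC0 hch moiety_even hB hk (he 1) (by
      rw [mul_one]
      exact he k)
    rw [abs_le] at h1 h2 ⊢
    constructor <;> linarith [h1.1, h1.2, h2.1, h2.2]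
  refine ⟨{b | 3 * C + 1 < |f b - e b|}, ?_, |e 1| + 2 * (41 * C + 14) + (3 * C + 1), ?_⟩
  · rw [lt_iff]
    by_contra hcon
    obtain ⟨X0, hX0, hX0c⟩ := Cardinal.le_mk_iff_exists_subset.1 (le_of_not_countable hcon)
    have hZ : #(⋃ b : X0, {x | x ∈ Fix {n | n % 2 = 0} ∧ 2 * C + 1 < |f (x * b.1) - e b.1|} :
        Set (Equiv.Perm ℕ)) ≤ ℵ_ 1 := iUnion_le hX0c.le _ fun b => he b.1
    have hbig := big_diff (fix_big hch moiety_even.1) hZ
    obtain ⟨x, hx, hx2⟩ : (Fix {n | n % 2 = 0} \ (⋃ b : X0,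
        {x | x ∈ Fix {n | n % 2 = 0} ∧ 2 * C + 1 < |f (x * b.1) - e b.1|})).Nonempty := by
      by_contra hcon
      rw [not_nonempty_iff_eq_empty] at hcon
      rw [hcon, Cardinal.mk_eq_zero] at hbig
      exact absurd hbig (not_lt.2 zero_le)
    refine not_countable_of (B := X0) (by rw [hX0c]) ((hC x).mono fun b hb => ?_)
    have h1 : |f (x * b) - e b| ≤ 2 * C + 1 := by
      by_contra h
      exact hx2 (mem_iUnion.2 ⟨⟨b, hb⟩, hx, not_le.1 h⟩)
    have h2 : 3 * C + 1 < |f b - e b| := hX0 hb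
    show C < |f (x * b) - f b|
    have h3 := abs_sub_le (f b) (f (x * b)) (e b)
    rw [abs_sub_comm (f b) (f (x * b))] at h3
    linarith
  · intro b hb
    have h1 : |f b - e b| ≤ 3 * C + 1 := not_lt.1 hb
    have h2 := he1 b
    have h3 : |f b| ≤ |f b - e b| + |e b - e 1| + |e 1| := by
      have h4 := abs_add_le (f b - e b) (e b - e 1)
      have h5 := abs_add_le (f b - e b + (e b - e 1)) (e 1)
      have h6 : f b - e b + (e b - e 1) + e 1 = f b := by ring
      rw [h6] at h5
      linarith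
    linarith

/-- The `ω₁`-ballean of the group of all permutations of `ω` is emu-bounded if and only if the
continuum hypothesis fails. -/
theorem result : EmuBounded (ℵ_ 1) (Equiv.Perm ℕ) ↔ (ℵ_ 1 : Cardinal.{0}) ≠ 𝔠 := by
  constructor
  · intro h hch
    refine not_emuBounded ?_ h
    have h1 : 𝔠 ≤ #(Equiv.Perm ℕ) := (mk_fix moiety_even.1).trans (Cardinal.mk_set_le _)
    have h2 : #(Equiv.Perm ℕ) ≤ 𝔠 := by
      have h3 : #(Equiv.Perm ℕ) ≤ #(ℕ → ℕ) :=
        Cardinal.mk_le_of_injective (f := fun g : Equiv.Perm ℕ => (g : ℕ → ℕ)) DFunLike.coe_injective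
      refine h3.trans ?_
      rw [← Cardinal.power_def, Cardinal.mk_nat, Cardinal.aleph0_power_aleph0]
    rw [hch]
    exact le_antisymm h2 h1
  · intro h
    exact emuBounded (lt_of_le_of_ne aleph_one_le_continuum h)

end Pool.Agent.Results.MP_c8ce56_lc.EmuBoundedIffNotCH
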